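import Mathlib

set_option autoImplicit false

namespace Pool.Agent.W480.Amal

open Matrix

/-- If `A` is positive definite and `B` Hermitian, then the roots of `det (A + l B)` are real. -/
theorem det_real {n : ℕ} (A B : Matrix (Fin n) (Fin n) ℂ)
    (hA : ∀ v : Fin n → ℂ, v ≠ 0 → 0 < (star v ⬝ᵥ A *ᵥ v).re)
    (hA' : ∀ v : Fin n → ℂ, (star v ⬝ᵥ A *ᵥ v).im = 0)
    (hB : ∀ v : Fin n → ℂ, (star v ⬝ᵥ B *ᵥ v).im = 0) (l : ℂ) (h : (A + l • B).det = 0) :
    l.im = 0 := by
  obtain ⟨v, hv, hv0⟩ := Matrix.exists_mulVec_eq_zero_iff.2 h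
  have h1 : star v ⬝ᵥ A *ᵥ v + l * (star v ⬝ᵥ B *ᵥ v) = 0 := by
    have := congrArg (fun w => star v ⬝ᵥ w) hv0
    simp only [Matrix.add_mulVec, Matrix.smul_mulVec, dotProduct_add, dotProduct_smul,
      dotProduct_zero, smul_eq_mul] at this
    exact this
  have h2 := congrArg Complex.im h1
  have h3 := congrArg Complex.re h1
  simp only [Complex.add_im, Complex.mul_im, Complex.add_re, Complex.mul_re, hB v, hA' v,
    mul_zero, zero_add, sub_zero, Complex.zero_im, Complex.zero_re] at h2 h3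
  rcases mul_eq_zero.1 h2 with h4 | h4
  · exact h4
  · rw [h4] at h3
    have := hA v hv
    simp at h3
    linarith

/-- A real diagonal matrix plus a real multiple of the all-ones matrix. -/
noncomputable def dJ (a1 a2 a3 b : ℂ) : Matrix (Fin 3) (Fin 3) ℂ :=
  !![a1 + b, b, b; b, a2 + b, b; b, b, a3 + b]

theorem dJ_form (a1 a2 a3 b : ℝ) (v : Fin 3 → ℂ) :
    star v ⬝ᵥ (dJ a1 a2 a3 b) *ᵥ v =
      ((a1 * Complex.normSq (v 0) + a2 * Complex.normSq (v 1) + a3 * Complex.normSq (v 2) +
        b * Complex.normSq (v 0 + v 1 + v 2) : ℝ) : ℂ) := by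
  simp only [dJ, Matrix.mulVec, dotProduct, Fin.sum_univ_three, Matrix.of_apply, Matrix.cons_val',
    Matrix.cons_val_zero, Matrix.cons_val_one, Matrix.cons_val_two, Pi.star_apply,
    RCLike.star_def, Matrix.head_cons, Matrix.tail_cons, Matrix.cons_val_fin_one]
  apply Complex.ext
  · simp [Complex.normSq_apply]
    ring
  · simp [Complex.normSq_apply]
    ring

theorem dJ_det (a1 a2 a3 b : ℂ) :
    (dJ a1 a2 a3 b).det = a1 * a2 * a3 + b * (a1 * a2 + a1 * a3 + a2 * a3) := by
  simp [dJ, Matrix.det_fin_three]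
  ring

theorem dJ_add (a1 a2 a3 b a1' a2' a3' b' l : ℂ) :
    dJ a1 a2 a3 b + l • dJ a1' a2' a3' b' = dJ (a1 + l * a1') (a2 + l * a2') (a3 + l * a3')
      (b + l * b') := by
  ext i j
  fin_cases i <;> fin_cases j <;> simp [dJ] <;> ring

/-- real-rootedness of the pencils used -/
theorem pencil_real (a b a1 a2 a3 c : ℝ) (ha : 0 < a) (hab : 0 < a + 3 * b) (l : ℂ)
    (h : (a + l * a1) * (a + l * a2) * (a + l * a3) + (b + l * c) * ((a + l * a1) * (a + l * a2) +
      (a + l * a1) * (a + l * a3) + (a + l * a2) * (a + l * a3)) = 0) : l.im = 0 := by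
  refine det_real (dJ a a a b) (dJ a1 a2 a3 c) ?_ ?_ ?_ l ?_
  · intro v hv
    rw [dJ_form, Complex.ofReal_re]
    have h1 : Complex.normSq (v 0 + v 1 + v 2) ≤
        3 * (Complex.normSq (v 0) + Complex.normSq (v 1) + Complex.normSq (v 2)) := by
      simp only [Complex.normSq_apply, Complex.add_re, Complex.add_im]
      nlinarith [sq_nonneg ((v 0).re - (v 1).re), sq_nonneg ((v 0).re - (v 2).re),
        sq_nonneg ((v 1).re - (v 2).re), sq_nonneg ((v 0).im - (v 1).im),
        sq_nonneg ((v 0).im - (v 2).im), sq_nonneg ((v 1).im - (v 2).im)]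
    have h2 : 0 < Complex.normSq (v 0) + Complex.normSq (v 1) + Complex.normSq (v 2) := by
      by_contra hcon
      apply hv
      have n0 := Complex.normSq_nonneg (v 0)
      have n1 := Complex.normSq_nonneg (v 1)
      have n2 := Complex.normSq_nonneg (v 2)
      have e0 : Complex.normSq (v 0) = 0 := by linarith
      have e1 : Complex.normSq (v 1) = 0 := by linarith
      have e2 : Complex.normSq (v 2) = 0 := by linarith
      rw [Complex.normSq_eq_zero] at e0 e1 e2
      funext i
      fin_cases i <;> simp [e0, e1, e2]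
    have n3 := Complex.normSq_nonneg (v 0 + v 1 + v 2)
    rcases le_or_gt 0 b with hb | hb
    · nlinarith [mul_nonneg hb n3, mul_pos ha h2]
    · nlinarith [mul_le_mul_of_nonpos_left h1 hb.le, mul_pos hab h2]
  · intro v
    rw [dJ_form, Complex.ofReal_im]
  · intro v
    rw [dJ_form, Complex.ofReal_im]
  · rw [dJ_add, dJ_det]
    exact h

end Pool.Agent.W480.Amal
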