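import Mathlib

set_option autoImplicit false

namespace Pool.Agent.W480.Amal

open Polynomial

/-- Laguerre's inequality for real-rooted polynomials. -/
theorem laguerre (n : ℕ) : ∀ f : ℝ[X], f.natDegree = n → f ≠ 0 →
    (∀ z : ℂ, aeval z f = 0 → z.im = 0) → ∀ t : ℝ,
    f.eval t * f.derivative.derivative.eval t ≤ (f.derivative.eval t) ^ 2 := by
  induction n with
  | zero =>
    intro f hf _ _ t
    rw [Polynomial.eq_C_of_natDegree_eq_zero hf]
    simp
  | succ n ih =>
    intro f hf h0 hz t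
    have hdeg : 0 < f.degree := by
      rw [← Polynomial.natDegree_pos_iff_degree_pos]
      omega
    have hne : (f.map (algebraMap ℝ ℂ)).degree ≠ 0 := by
      rw [Polynomial.degree_map]
      exact hdeg.ne'
    obtain ⟨z, hz0⟩ := IsAlgClosed.exists_root (f.map (algebraMap ℝ ℂ)) hne
    have hz1 : aeval z f = 0 := by
      rw [Polynomial.aeval_def, ← Polynomial.eval_map]
      exact hz0
    have him := hz z hz1
    obtain ⟨c, rfl⟩ : ∃ c : ℝ, z = (c : ℂ) := ⟨z.re, by
      apply Complex.ext <;> simp [him]⟩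
    have hc : f.eval c = 0 := by
      have h1 : aeval (c : ℂ) f = ((f.eval c : ℝ) : ℂ) := by
        have := Polynomial.aeval_algebraMap_apply ℂ c f
        simpa using this
      rw [h1] at hz1
      exact_mod_cast hz1
    obtain ⟨g, rfl⟩ := Polynomial.dvd_iff_isRoot.2 hc
    have hg0 : g ≠ 0 := right_ne_zero_of_mul h0
    have hgdeg : g.natDegree = n := by
      rw [Polynomial.natDegree_mul (Polynomial.X_sub_C_ne_zero c) hg0,
        Polynomial.natDegree_X_sub_C] at hf
      omega
    have := ih g hgdeg hg0 (fun w hw => hz w (by rw [map_mul, hw, mul_zero])) t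
    simp only [derivative_mul, derivative_sub, derivative_X, derivative_C, sub_zero, one_mul,
      derivative_add, eval_add, eval_mul, eval_sub, eval_X, eval_C]
    nlinarith [mul_nonneg (sq_nonneg (t - c)) (sub_nonneg.2 this), sq_nonneg (g.eval t)]

theorem coeff_zero_of_nonneg (p1 p2 p3 f1 f2 f3 k0 k1 k2 k3 : ℝ) (hk : k0 ≠ 0)
    (h : ∀ e : ℝ, (f1 * e + f2 * e ^ 2 + f3 * e ^ 3) * (k0 + k1 * e + k2 * e ^ 2 + k3 * e ^ 3) ≤
      (p1 * e + p2 * e ^ 2 + p3 * e ^ 3) ^ 2) : f1 = 0 := by
  let g : ℝ[X] := (C p1 * X + C p2 * X ^ 2 + C p3 * X ^ 3) ^ 2 -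
    (C f1 * X + C f2 * X ^ 2 + C f3 * X ^ 3) * (C k0 + C k1 * X + C k2 * X ^ 2 + C k3 * X ^ 3)
  have hmin : IsLocalMin (fun x => g.eval x) 0 := by
    apply Filter.Eventually.of_forall
    intro e
    simp only [g, eval_sub, eval_pow, eval_add, eval_mul, eval_C, eval_X]
    have := h e
    nlinarith [this]
  have h1 := hmin.hasDerivAt_eq_zero (g.hasDerivAt 0)
  simp [g, derivative_mul, derivative_pow] at h1
  rcases h1 with h1 | h1
  · exact h1
  · exact absurd h1 hk

end Pool.Agent.W480.Amal
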