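import Pool.Agent.W480.Amal.Lag
import Pool.Agent.W480.Amal.Det

set_option autoImplicit false

namespace Pool.Agent.W480.Amal

open MvPolynomial

/-- A real zero polynomial: for every real vector `a` and every complex `l` with `f (l a) = 0`
the number `l` is real. -/
def RealZero {σ : Type*} (f : MvPolynomial σ ℝ) : Prop :=
  ∀ (a : σ → ℝ) (l : ℂ), aeval (fun i => l * (a i : ℂ)) f = 0 → l.im = 0

/-- the restriction of `f` to a line through the origin -/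
noncomputable def line {σ : Type*} (a : σ → ℝ) (f : MvPolynomial σ ℝ) : Polynomial ℝ :=
  aeval (fun i => Polynomial.C (a i) * Polynomial.X) f

theorem aeval_line {σ : Type*} (a : σ → ℝ) (f : MvPolynomial σ ℝ) (l : ℂ) :
    Polynomial.aeval l (line a f) = aeval (fun i => l * (a i : ℂ)) f := by
  rw [line, ← AlgHom.comp_apply, comp_aeval]
  congr 2
  funext i
  rw [map_mul, Polynomial.aeval_C, Polynomial.aeval_X, mul_comm]
  rfl

theorem eval_line {σ : Type*} (a : σ → ℝ) (f : MvPolynomial σ ℝ) (t : ℝ) :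
    Polynomial.eval t (line a f) = eval (fun i => t * a i) f := by
  have : Polynomial.aeval t (line a f) = aeval (fun i => t * a i) f := by
    rw [line, ← AlgHom.comp_apply, comp_aeval]
    congr 2
    funext i
    rw [map_mul, Polynomial.aeval_C, Polynomial.aeval_X, mul_comm]
    rfl
  simpa [Polynomial.coe_aeval_eq_eval, MvPolynomial.coe_aeval_eq_eval] using this

/-- the point `(u, v, y)` -/
def pt3 (u v y : ℝ) : Fin 2 ⊕ Fin 1 → ℝ := Sum.elim ![u, v] ![y]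

/-- the point `(u, v, y, z)` -/
def pt4 (u v y z : ℝ) : Fin 2 ⊕ Fin 1 ⊕ Fin 1 → ℝ := Sum.elim ![u, v] (Sum.elim ![y] ![z])

/-- Polynomials of degree at most three in four variables: the mixed part. -/
theorem mixed (r : MvPolynomial (Fin 2 ⊕ Fin 1 ⊕ Fin 1) ℝ) (hr : r.totalDegree ≤ 3) :
    ∃ a b c d e : ℝ, ∀ u v y z, eval (pt4 u v y z) r - eval (pt4 u v 0 z) r -
      eval (pt4 u v y 0) r + eval (pt4 u v 0 0) r = y * z * (a + b * u + c * v + d * y + e * z) := by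
  classical
  have key : ∀ s ∈ r.support, ∃ a b c d e : ℝ, ∀ u v y z,
      eval (pt4 u v y z) (monomial s (coeff s r)) - eval (pt4 u v 0 z) (monomial s (coeff s r)) -
      eval (pt4 u v y 0) (monomial s (coeff s r)) + eval (pt4 u v 0 0) (monomial s (coeff s r)) =
      y * z * (a + b * u + c * v + d * y + e * z) := by
    intro s hs
    have h1 := le_totalDegree hs
    have h2 : (s.sum fun _ e => e) = s (Sum.inl 0) + s (Sum.inl 1) + s (Sum.inr (Sum.inl 0)) +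
        s (Sum.inr (Sum.inr 0)) := by
      rw [Finsupp.sum_fintype _ _ (by simp)]
      simp [Fintype.sum_sum_type, add_assoc]
    have hev : ∀ u v y z, eval (pt4 u v y z) (monomial s (coeff s r)) =
        coeff s r * (u ^ s (Sum.inl 0) * v ^ s (Sum.inl 1) * y ^ s (Sum.inr (Sum.inl 0)) *
        z ^ s (Sum.inr (Sum.inr 0))) := by
      intro u v y z
      rw [eval_monomial, Finsupp.prod_fintype _ _ (by simp)]
      simp [Fintype.prod_sum_type, pt4, mul_assoc]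
    simp only [hev]
    generalize coeff s r = k
    generalize s (Sum.inl 0) = i at *
    generalize s (Sum.inl 1) = j at *
    generalize s (Sum.inr (Sum.inl 0)) = m at *
    generalize s (Sum.inr (Sum.inr 0)) = n at *
    rw [h2] at h1
    have h3 : i + j + m + n ≤ 3 := h1.trans hr
    rcases Nat.eq_zero_or_pos m with hm | hm
    · subst hm
      exact ⟨0, 0, 0, 0, 0, fun u v y z => by ring⟩
    rcases Nat.eq_zero_or_pos n with hn | hn
    · subst hn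
      exact ⟨0, 0, 0, 0, 0, fun u v y z => by ring⟩
    have hcase : (i = 0 ∧ j = 0 ∧ m = 1 ∧ n = 1) ∨ (i = 1 ∧ j = 0 ∧ m = 1 ∧ n = 1) ∨
        (i = 0 ∧ j = 1 ∧ m = 1 ∧ n = 1) ∨ (i = 0 ∧ j = 0 ∧ m = 2 ∧ n = 1) ∨
        (i = 0 ∧ j = 0 ∧ m = 1 ∧ n = 2) := by omega
    rcases hcase with ⟨rfl, rfl, rfl, rfl⟩ | ⟨rfl, rfl, rfl, rfl⟩ | ⟨rfl, rfl, rfl, rfl⟩ |
      ⟨rfl, rfl, rfl, rfl⟩ | ⟨rfl, rfl, rfl, rfl⟩
    · exact ⟨k, 0, 0, 0, 0, fun u v y z => by ring⟩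
    · exact ⟨0, k, 0, 0, 0, fun u v y z => by ring⟩
    · exact ⟨0, 0, k, 0, 0, fun u v y z => by ring⟩
    · exact ⟨0, 0, 0, k, 0, fun u v y z => by ring⟩
    · exact ⟨0, 0, 0, 0, k, fun u v y z => by ring⟩
  have key2 : ∀ S : Finset (Fin 2 ⊕ Fin 1 ⊕ Fin 1 →₀ ℕ), S ⊆ r.support →
      ∃ a b c d e : ℝ, ∀ u v y z,
      eval (pt4 u v y z) (∑ s ∈ S, monomial s (coeff s r)) -
      eval (pt4 u v 0 z) (∑ s ∈ S, monomial s (coeff s r)) -
      eval (pt4 u v y 0) (∑ s ∈ S, monomial s (coeff s r)) +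
      eval (pt4 u v 0 0) (∑ s ∈ S, monomial s (coeff s r)) =
      y * z * (a + b * u + c * v + d * y + e * z) := by
    intro S
    induction S using Finset.induction_on with
    | empty => exact fun _ => ⟨0, 0, 0, 0, 0, fun u v y z => by simp⟩
    | insert s S hs ih =>
      intro hsub
      obtain ⟨a, b, c, d, e, h1⟩ := ih (fun x hx => hsub (Finset.mem_insert_of_mem hx))
      obtain ⟨a', b', c', d', e', h2⟩ := key s (hsub (Finset.mem_insert_self _ _))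
      refine ⟨a + a', b + b', c + c', d + d', e + e', fun u v y z => ?_⟩
      rw [Finset.sum_insert hs]
      simp only [map_add]
      linear_combination h1 u v y z + h2 u v y z
  have := key2 r.support (Finset.Subset.refl _)
  rwa [support_sum_monomial_coeff] at this

/-- `p` as a function -/
noncomputable def P {R : Type*} [CommRing R] (u v y : R) : R :=
  (1 - y) ^ 3 - 7 * (1 - y) * (u ^ 2 + u * v + v ^ 2) - 10 * (u * v * (u + v)) +
    y * (3 * (1 - y) ^ 2 - (u ^ 2 + u * v + v ^ 2))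

/-- `8 q` as a function -/
noncomputable def Q {R : Type*} [CommRing R] (u v z : R) : R :=
  8 * (1 - z) ^ 3 - 56 * (1 - z) * (u ^ 2 + u * v + v ^ 2) - 80 * (u * v * (u + v)) +
    z * (27 * (1 - z) ^ 2 - 144 * (u ^ 2 + u * v + v ^ 2))

/-- the first polynomial -/
noncomputable def pp : MvPolynomial (Fin 2 ⊕ Fin 1) ℝ :=
  C 8 * P (X (Sum.inl 0)) (X (Sum.inl 1)) (X (Sum.inr 0))

/-- the second polynomial -/
noncomputable def qq : MvPolynomial (Fin 2 ⊕ Fin 1) ℝ :=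
  Q (X (Sum.inl 0)) (X (Sum.inl 1)) (X (Sum.inr 0))

theorem pp_real : RealZero pp := by
  intro a l h
  have h1 : (8 : ℂ) * P (l * (a (Sum.inl 0) : ℂ)) (l * (a (Sum.inl 1) : ℂ)) (l * (a (Sum.inr 0) : ℂ)) = 0 := by
    have := h
    simp only [pp, P, map_mul, map_add, map_sub, map_pow, map_one, aeval_X, map_ofNat] at this
    simp only [P]
    convert this using 2
  generalize (a (Sum.inl 0)) = u at h1
  generalize (a (Sum.inl 1)) = v at h1
  generalize (a (Sum.inr 0)) = y at h1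
  apply pencil_real 1 (-3/10) (u - y) (v - y) (-u - v - y) (4 * y / 10) one_pos (by norm_num) l
  push_cast
  simp only [P] at h1
  linear_combination (1/80) * h1

theorem qq_real : RealZero qq := by
  intro a l h
  have h1 : Q (l * (a (Sum.inl 0) : ℂ)) (l * (a (Sum.inl 1) : ℂ)) (l * (a (Sum.inr 0) : ℂ)) = 0 := by
    have := h
    simp only [qq, Q, map_mul, map_add, map_sub, map_pow, map_one, aeval_X, map_ofNat] at this
    simp only [Q]
    exact this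
  generalize (a (Sum.inl 0)) = u at h1
  generalize (a (Sum.inl 1)) = v at h1
  generalize (a (Sum.inr 0)) = z at h1
  apply pencil_real (1/3) (3/5) ((4 * u - z)/3) ((4 * v - z)/3) ((-4 * u - 4 * v - z)/3)
    (9 * z / 5) (by norm_num) (by norm_num) l
  push_cast
  simp only [Q] at h1
  linear_combination (4/135) * h1

theorem deg_le {σ : Type*} (f : MvPolynomial σ ℝ) (n m : ℕ) (h : f.totalDegree ≤ n) (k : ℕ)
    (hk : n * k ≤ m) : (f ^ k).totalDegree ≤ m :=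
  (totalDegree_pow f k).trans (by nlinarith)

theorem pp_deg : pp.totalDegree ≤ 3 := by
  have hX : ∀ i : Fin 2 ⊕ Fin 1, (X i : MvPolynomial (Fin 2 ⊕ Fin 1) ℝ).totalDegree ≤ 1 :=
    fun i => (totalDegree_X i).le
  have e : pp = C 8 - C 56 * (X (Sum.inl 0) * X (Sum.inl 0)) - C 56 * (X (Sum.inl 0) * X (Sum.inl 1)) -
      C 56 * (X (Sum.inl 1) * X (Sum.inl 1)) - C 80 * (X (Sum.inl 0) * X (Sum.inl 0) * X (Sum.inl 1)) -
      C 80 * (X (Sum.inl 0) * X (Sum.inl 1) * X (Sum.inl 1)) - C 24 * (X (Sum.inr 0) * X (Sum.inr 0)) +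
      C 16 * (X (Sum.inr 0) * X (Sum.inr 0) * X (Sum.inr 0)) +
      C 48 * (X (Sum.inl 0) * X (Sum.inl 0) * X (Sum.inr 0)) +
      C 48 * (X (Sum.inl 0) * X (Sum.inl 1) * X (Sum.inr 0)) +
      C 48 * (X (Sum.inl 1) * X (Sum.inl 1) * X (Sum.inr 0)) := by
    simp only [pp, P, map_ofNat]
    ring
  rw [e]
  have h2 : ∀ i j : Fin 2 ⊕ Fin 1, ∀ c : ℝ, (C c * (X i * X j) : MvPolynomial (Fin 2 ⊕ Fin 1) ℝ).totalDegree ≤ 3 := by
    intro i j c
    have h1 := totalDegree_mul (C c) (X i * X j : MvPolynomial (Fin 2 ⊕ Fin 1) ℝ)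
    have h2 := totalDegree_mul (X i) (X j : MvPolynomial (Fin 2 ⊕ Fin 1) ℝ)
    have h3 := hX i
    have h4 := hX j
    rw [totalDegree_C] at h1
    omega
  have h3 : ∀ i j k : Fin 2 ⊕ Fin 1, ∀ c : ℝ, (C c * (X i * X j * X k) : MvPolynomial (Fin 2 ⊕ Fin 1) ℝ).totalDegree ≤ 3 := by
    intro i j k c
    have h1 := totalDegree_mul (C c) (X i * X j * X k : MvPolynomial (Fin 2 ⊕ Fin 1) ℝ)
    have h2 := totalDegree_mul (X i * X j) (X k : MvPolynomial (Fin 2 ⊕ Fin 1) ℝ)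
    have h2' := totalDegree_mul (X i) (X j : MvPolynomial (Fin 2 ⊕ Fin 1) ℝ)
    have h3 := hX i
    have h4 := hX j
    have h5 := hX k
    rw [totalDegree_C] at h1
    omega
  have ha : ∀ f g : MvPolynomial (Fin 2 ⊕ Fin 1) ℝ, f.totalDegree ≤ 3 → g.totalDegree ≤ 3 →
      (f + g).totalDegree ≤ 3 := fun f g hf hg => (totalDegree_add f g).trans (max_le hf hg)
  have hs : ∀ f g : MvPolynomial (Fin 2 ⊕ Fin 1) ℝ, f.totalDegree ≤ 3 → g.totalDegree ≤ 3 →
      (f - g).totalDegree ≤ 3 := fun f g hf hg => (totalDegree_sub f g).trans (max_le hf hg)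
  have h0 : (C 8 : MvPolynomial (Fin 2 ⊕ Fin 1) ℝ).totalDegree ≤ 3 := by
    rw [totalDegree_C]; omega
  exact ha _ _ (ha _ _ (ha _ _ (ha _ _ (hs _ _ (hs _ _ (hs _ _ (hs _ _ (hs _ _ (hs _ _ h0
    (h2 _ _ _)) (h2 _ _ _)) (h2 _ _ _)) (h3 _ _ _ _)) (h3 _ _ _ _)) (h2 _ _ _)) (h3 _ _ _ _))
    (h3 _ _ _ _)) (h3 _ _ _ _)) (h3 _ _ _ _)

theorem qq_deg : qq.totalDegree ≤ 3 := by
  have hX : ∀ i : Fin 2 ⊕ Fin 1, (X i : MvPolynomial (Fin 2 ⊕ Fin 1) ℝ).totalDegree ≤ 1 :=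
    fun i => (totalDegree_X i).le
  have e : qq = C 8 + C 3 * X (Sum.inr 0) - C 30 * (X (Sum.inr 0) * X (Sum.inr 0)) -
      C 56 * (X (Sum.inl 0) * X (Sum.inl 0)) - C 56 * (X (Sum.inl 0) * X (Sum.inl 1)) -
      C 56 * (X (Sum.inl 1) * X (Sum.inl 1)) - C 80 * (X (Sum.inl 0) * X (Sum.inl 0) * X (Sum.inl 1)) -
      C 80 * (X (Sum.inl 0) * X (Sum.inl 1) * X (Sum.inl 1)) +
      C 19 * (X (Sum.inr 0) * X (Sum.inr 0) * X (Sum.inr 0)) -
      C 88 * (X (Sum.inl 0) * X (Sum.inl 0) * X (Sum.inr 0)) -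
      C 88 * (X (Sum.inl 0) * X (Sum.inl 1) * X (Sum.inr 0)) -
      C 88 * (X (Sum.inl 1) * X (Sum.inl 1) * X (Sum.inr 0)) := by
    simp only [qq, Q, map_ofNat]
    ring
  rw [e]
  have h1 : ∀ i : Fin 2 ⊕ Fin 1, ∀ c : ℝ, (C c * X i : MvPolynomial (Fin 2 ⊕ Fin 1) ℝ).totalDegree ≤ 3 := by
    intro i c
    have h1 := totalDegree_mul (C c) (X i : MvPolynomial (Fin 2 ⊕ Fin 1) ℝ)
    have h3 := hX i
    rw [totalDegree_C] at h1
    omega
  have h2 : ∀ i j : Fin 2 ⊕ Fin 1, ∀ c : ℝ, (C c * (X i * X j) : MvPolynomial (Fin 2 ⊕ Fin 1) ℝ).totalDegree ≤ 3 := by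
    intro i j c
    have h1 := totalDegree_mul (C c) (X i * X j : MvPolynomial (Fin 2 ⊕ Fin 1) ℝ)
    have h2 := totalDegree_mul (X i) (X j : MvPolynomial (Fin 2 ⊕ Fin 1) ℝ)
    have h3 := hX i
    have h4 := hX j
    rw [totalDegree_C] at h1
    omega
  have h3 : ∀ i j k : Fin 2 ⊕ Fin 1, ∀ c : ℝ, (C c * (X i * X j * X k) : MvPolynomial (Fin 2 ⊕ Fin 1) ℝ).totalDegree ≤ 3 := by
    intro i j k c
    have h1 := totalDegree_mul (C c) (X i * X j * X k : MvPolynomial (Fin 2 ⊕ Fin 1) ℝ)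
    have h2 := totalDegree_mul (X i * X j) (X k : MvPolynomial (Fin 2 ⊕ Fin 1) ℝ)
    have h2' := totalDegree_mul (X i) (X j : MvPolynomial (Fin 2 ⊕ Fin 1) ℝ)
    have h3 := hX i
    have h4 := hX j
    have h5 := hX k
    rw [totalDegree_C] at h1
    omega
  have ha : ∀ f g : MvPolynomial (Fin 2 ⊕ Fin 1) ℝ, f.totalDegree ≤ 3 → g.totalDegree ≤ 3 →
      (f + g).totalDegree ≤ 3 := fun f g hf hg => (totalDegree_add f g).trans (max_le hf hg)
  have hs : ∀ f g : MvPolynomial (Fin 2 ⊕ Fin 1) ℝ, f.totalDegree ≤ 3 → g.totalDegree ≤ 3 →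
      (f - g).totalDegree ≤ 3 := fun f g hf hg => (totalDegree_sub f g).trans (max_le hf hg)
  have h0 : (C 8 : MvPolynomial (Fin 2 ⊕ Fin 1) ℝ).totalDegree ≤ 3 := by
    rw [totalDegree_C]; omega
  exact hs _ _ (hs _ _ (hs _ _ (ha _ _ (hs _ _ (hs _ _ (hs _ _ (hs _ _ (hs _ _ (hs _ _ (ha _ _ h0
    (h1 _ _)) (h2 _ _ _)) (h2 _ _ _)) (h2 _ _ _)) (h2 _ _ _)) (h3 _ _ _ _)) (h3 _ _ _ _))
    (h3 _ _ _ _)) (h3 _ _ _ _)) (h3 _ _ _ _)) (h3 _ _ _ _)

/-- The key computation: no choice of the mixed coefficients works. -/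
theorem no_mixed (a b c d e : ℝ) (h : ∀ u v y z : ℝ, ∀ l : ℂ,
    8 + (3 * z : ℝ) * l + ((-24 * y ^ 2 - 30 * z ^ 2 - 56 * (u ^ 2 + u * v + v ^ 2) + a * y * z : ℝ)) * l ^ 2 +
    ((16 * y ^ 3 + 48 * y * (u ^ 2 + u * v + v ^ 2) + 19 * z ^ 3 - 88 * z * (u ^ 2 + u * v + v ^ 2)
      - 80 * (u * v * (u + v)) + y * z * (b * u + c * v + d * y + e * z) : ℝ)) * l ^ 3 = 0 →
      l.im = 0) : False := by
  have lag : ∀ c1 c2 c3 : ℝ, (∀ l : ℂ, 8 + (c1 : ℂ) * l + (c2 : ℂ) * l ^ 2 + (c3 : ℂ) * l ^ 3 = 0 → l.im = 0) →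
      (8 + c1 + c2 + c3) * (2 * c2 + 6 * c3) ≤ (c1 + 2 * c2 + 3 * c3) ^ 2 := by
    intro c1 c2 c3 hl
    let f : Polynomial ℝ := Polynomial.C 8 + Polynomial.C c1 * Polynomial.X +
      Polynomial.C c2 * Polynomial.X ^ 2 + Polynomial.C c3 * Polynomial.X ^ 3
    have hf0 : f ≠ 0 := by
      intro h0
      have : f.eval 0 = 8 := by simp [f]
      rw [h0] at this
      simp at this
    have := laguerre _ f rfl hf0 (by
      intro z hz
      apply hl z
      simpa [f] using hz) 1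
    simp [f, Polynomial.derivative_mul] at this
    ring_nf at this ⊢
    linarith
  have H := fun u v y z => lag _ _ _ (h u v y z)
  -- nodes of the first polynomial, moved in the direction of the last variable
  have nodeP : ∀ u v y : ℝ,
      8 + (-24 * y ^ 2 - 56 * (u ^ 2 + u * v + v ^ 2)) +
        (16 * y ^ 3 + 48 * y * (u ^ 2 + u * v + v ^ 2) - 80 * (u * v * (u + v))) = 0 →
      2 * (-24 * y ^ 2 - 56 * (u ^ 2 + u * v + v ^ 2)) +
        3 * (16 * y ^ 3 + 48 * y * (u ^ 2 + u * v + v ^ 2) - 80 * (u * v * (u + v))) = 0 →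
      3 + a * y + (-88 * (u ^ 2 + u * v + v ^ 2) + y * (b * u + c * v + d * y)) = 0 := by
    intro u v y h1 h2
    refine coeff_zero_of_nonneg
      (3 + 2 * (a * y) + 3 * (-88 * (u ^ 2 + u * v + v ^ 2) + y * (b * u + c * v + d * y)))
      (2 * (-30) + 3 * (e * y)) (3 * 19)
      (3 + a * y + (-88 * (u ^ 2 + u * v + v ^ 2) + y * (b * u + c * v + d * y)))
      (-30 + e * y) 19 48
      (2 * (a * y) + 6 * (-88 * (u ^ 2 + u * v + v ^ 2) + y * (b * u + c * v + d * y)))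
      (2 * (-30) + 6 * (e * y)) (6 * 19) (by norm_num) ?_
    intro ε
    have h3 := H u v y ε
    generalize hA : (-24 * y ^ 2 - 56 * (u ^ 2 + u * v + v ^ 2)) = A at h1 h2
    generalize hB : (16 * y ^ 3 + 48 * y * (u ^ 2 + u * v + v ^ 2) - 80 * (u * v * (u + v))) = B at h1 h2
    have hA' : A = -24 := by linarith
    have hB' : B = 16 := by linarith
    have e1 : -24 * y ^ 2 - 30 * ε ^ 2 - 56 * (u ^ 2 + u * v + v ^ 2) + a * y * ε =
        -24 - 30 * ε ^ 2 + a * y * ε := by linarith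
    have e2 : 16 * y ^ 3 + 48 * y * (u ^ 2 + u * v + v ^ 2) + 19 * ε ^ 3 -
        88 * ε * (u ^ 2 + u * v + v ^ 2) - 80 * (u * v * (u + v)) +
        y * ε * (b * u + c * v + d * y + e * ε) = 16 +
        (-88 * (u ^ 2 + u * v + v ^ 2) + y * (b * u + c * v + d * y)) * ε + e * y * ε ^ 2 +
        19 * ε ^ 3 := by
      linear_combination hB + hB'
    rw [e1, e2] at h3
    generalize (-88 * (u ^ 2 + u * v + v ^ 2) + y * (b * u + c * v + d * y)) = k at h3 ⊢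
    calc _ = (8 + 3 * ε + (-24 - 30 * ε ^ 2 + a * y * ε) + (16 + k * ε + e * y * ε ^ 2 + 19 * ε ^ 3)) *
        (2 * (-24 - 30 * ε ^ 2 + a * y * ε) + 6 * (16 + k * ε + e * y * ε ^ 2 + 19 * ε ^ 3)) := by ring
      _ ≤ _ := h3
      _ = _ := by ring
  -- nodes of the second polynomial, moved in the direction of the third variable
  have nodeQ : ∀ u v z k0 : ℝ, k0 ≠ 0 →
      8 + 3 * z + (- 30 * z ^ 2 - 56 * (u ^ 2 + u * v + v ^ 2)) +
        (19 * z ^ 3 - 88 * z * (u ^ 2 + u * v + v ^ 2) - 80 * (u * v * (u + v))) = 0 →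
      3 * z + 2 * (- 30 * z ^ 2 - 56 * (u ^ 2 + u * v + v ^ 2)) +
        3 * (19 * z ^ 3 - 88 * z * (u ^ 2 + u * v + v ^ 2) - 80 * (u * v * (u + v))) = 0 →
      2 * (- 30 * z ^ 2 - 56 * (u ^ 2 + u * v + v ^ 2)) +
        6 * (19 * z ^ 3 - 88 * z * (u ^ 2 + u * v + v ^ 2) - 80 * (u * v * (u + v))) = k0 →
      a * z + (48 * (u ^ 2 + u * v + v ^ 2) + z * (b * u + c * v + e * z)) = 0 := by
    intro u v z k0 hk0 h1 h2 hk
    refine coeff_zero_of_nonneg
      (2 * (a * z) + 3 * (48 * (u ^ 2 + u * v + v ^ 2) + z * (b * u + c * v + e * z)))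
      (2 * (-24) + 3 * (d * z)) (3 * 16)
      (a * z + (48 * (u ^ 2 + u * v + v ^ 2) + z * (b * u + c * v + e * z)))
      (-24 + d * z) 16 k0
      (2 * (a * z) + 6 * (48 * (u ^ 2 + u * v + v ^ 2) + z * (b * u + c * v + e * z)))
      (2 * (-24) + 6 * (d * z)) (6 * 16) hk0 ?_
    intro ε
    have h3 := H u v ε z
    generalize hA : (- 30 * z ^ 2 - 56 * (u ^ 2 + u * v + v ^ 2)) = A at h1 h2 hk
    generalize hB : (19 * z ^ 3 - 88 * z * (u ^ 2 + u * v + v ^ 2) - 80 * (u * v * (u + v))) = B at h1 h2 hk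
    have e1 : -24 * ε ^ 2 - 30 * z ^ 2 - 56 * (u ^ 2 + u * v + v ^ 2) + a * ε * z =
        A - 24 * ε ^ 2 + a * z * ε := by linear_combination hA
    have e2 : 16 * ε ^ 3 + 48 * ε * (u ^ 2 + u * v + v ^ 2) + 19 * z ^ 3 -
        88 * z * (u ^ 2 + u * v + v ^ 2) - 80 * (u * v * (u + v)) +
        ε * z * (b * u + c * v + d * ε + e * z) = B +
        (48 * (u ^ 2 + u * v + v ^ 2) + z * (b * u + c * v + e * z)) * ε + d * z * ε ^ 2 +
        16 * ε ^ 3 := by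
      linear_combination hB
    rw [e1, e2] at h3
    generalize (48 * (u ^ 2 + u * v + v ^ 2) + z * (b * u + c * v + e * z)) = k at h3 ⊢
    have hz3 : 3 * z = -2 * A - 3 * B := by linarith
    have hA0 : A = -8 - 3 * z - B := by linarith
    have h4 : 8 + 3 * z + (A - 24 * ε ^ 2 + a * z * ε) + (B + k * ε + d * z * ε ^ 2 + 16 * ε ^ 3) =
        (a * z + k) * ε + (-24 + d * z) * ε ^ 2 + 16 * ε ^ 3 := by linear_combination h1
    have h5 : 2 * (A - 24 * ε ^ 2 + a * z * ε) + 6 * (B + k * ε + d * z * ε ^ 2 + 16 * ε ^ 3) =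
        k0 + (2 * (a * z) + 6 * k) * ε + (2 * (-24) + 6 * (d * z)) * ε ^ 2 + 6 * 16 * ε ^ 3 := by
      linear_combination hk
    have h6 : 3 * z + 2 * (A - 24 * ε ^ 2 + a * z * ε) + 3 * (B + k * ε + d * z * ε ^ 2 + 16 * ε ^ 3) =
        (2 * (a * z) + 3 * k) * ε + (2 * (-24) + 3 * (d * z)) * ε ^ 2 + 3 * 16 * ε ^ 3 := by
      linear_combination h2
    rw [h4, h5, h6] at h3
    exact h3
  have p1 := nodeP (1/2) (-1/4) (3/4) (by norm_num) (by norm_num)
  have p2 := nodeP (-1/4) (1/2) (3/4) (by norm_num) (by norm_num)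
  have p3 := nodeP (-1/4) (-1/4) (3/4) (by norm_num) (by norm_num)
  have p4 := nodeP 0 0 1 (by norm_num) (by norm_num)
  have q1 := nodeQ (2/3) (-1/3) (-1/3) (2 * (- 30 * (-1/3) ^ 2 - 56 * ((2/3) ^ 2 + (2/3) * (-1/3) + (-1/3) ^ 2)) +
        6 * (19 * (-1/3) ^ 3 - 88 * (-1/3) * ((2/3) ^ 2 + (2/3) * (-1/3) + (-1/3) ^ 2) - 80 * ((2/3) * (-1/3) * ((2/3) + (-1/3)))))
        (by norm_num) (by norm_num) (by norm_num) rfl
  have q4 := nodeQ 0 0 1 54 (by norm_num) (by norm_num) (by norm_num) (by norm_num)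
  norm_num at p1 p2 p3 p4 q1 q4
  linarith

end Pool.Agent.W480.Amal
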